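import Pool.Agent.Helper79.GS.St5

set_option autoImplicit false

namespace Pool.Agent.Helper22.GS

open Pool.Agent.Helper79.GS Pool.Agent.Helper19.SK Pool.Agent.Helper73.DC Finset
open scoped Classical

private theorem rk_bound (n T r k d X : ℕ) (hX : 2 ≤ X) (hn : n + 2 ≤ X) (hr : r + 2 ≤ X + 2 * (n * n + 1) ^ 2)
    (hk : k ≤ n * n + 1) (hd : d ≤ LL n + 1) :
    (if T = 0 then 0
      else r * ((n * n + 2) * (LL n + 6) + 2) +
        (if T = 1 then 2 + (n * n + 2) * (LL n + 6)
        else if T = 2 then 1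
        else if T = 3 then 2 + k * (LL n + 6)
        else if T = 4 then 2 + k * (LL n + 6) + LL n + 4
        else if T = 5 then 4 + k * (LL n + 6) + d
        else if T = 6 then 3 + k * (LL n + 6)
        else 3 + (n * n + 2) * (LL n + 6))) < X ^ 16 := by
  have hL : LL n = 2 * (n * n) + 1 := rfl
  have hn2 : n * n + 4 ≤ X * X := by nlinarith
  have hL6 : LL n + 6 ≤ 2 * (X * X) := by omega
  have hA : (n * n + 2) * (LL n + 6) ≤ 2 * (X * X) * (X * X) := by
    calc (n * n + 2) * (LL n + 6) ≤ (X * X) * (2 * (X * X)) := Nat.mul_le_mul (by omega) hL6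
      _ = 2 * (X * X) * (X * X) := by ring
  have hk6 : k * (LL n + 6) ≤ 2 * (X * X) * (X * X) :=
    le_trans (Nat.mul_le_mul_right _ (by omega)) hA
  have hX4 : X * X ≤ (X * X) * (X * X) := Nat.le_mul_of_pos_left _ (by positivity)
  have hX5 : X ≤ X * X := by nlinarith
  have hr4 : r ≤ 3 * ((X * X) * (X * X)) := by
    have h1 : (n * n + 1) ^ 2 ≤ (X * X) * (X * X) := by
      rw [pow_two]
      exact Nat.mul_le_mul (by omega) (by omega)
    omega
  have hX8 : 16 ≤ (X * X) * (X * X) := by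
    have : 4 ≤ X * X := by nlinarith
    nlinarith
  set Y := (X * X) * (X * X) with hY
  have hA2 : 2 * (X * X) * (X * X) = 2 * Y := by rw [hY]; ring
  rw [hA2] at hA hk6
  have hYX : X ^ 16 = Y * Y * (Y * Y) := by rw [hY]; ring
  have hr5 : r * ((n * n + 2) * (LL n + 6) + 2) ≤ 3 * Y * (3 * Y) :=
    Nat.mul_le_mul hr4 (by omega)
  have hin : (if T = 1 then 2 + (n * n + 2) * (LL n + 6)
        else if T = 2 then 1
        else if T = 3 then 2 + k * (LL n + 6)
        else if T = 4 then 2 + k * (LL n + 6) + LL n + 4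
        else if T = 5 then 4 + k * (LL n + 6) + d
        else if T = 6 then 3 + k * (LL n + 6)
        else 3 + (n * n + 2) * (LL n + 6)) ≤ 5 * Y := by
    split_ifs <;> omega
  have hfin : 3 * Y * (3 * Y) + 5 * Y < X ^ 16 := by
    rw [hYX]
    have h1 : 5 * Y ≤ Y * Y := by nlinarith
    have h2 : 16 * 16 ≤ Y * Y := Nat.mul_le_mul hX8 hX8
    have h3 : 256 * (Y * Y) ≤ Y * Y * (Y * Y) := Nat.mul_le_mul_right _ h2
    have h4 : 3 * Y * (3 * Y) = 9 * (Y * Y) := by ring
    have h5 : 0 < Y * Y := by positivity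
    omega
  split_ifs at hin ⊢ <;> omega

theorem hRKB (hBND : StBND) (hFLD : StFLD) : StRKB := by
  intro w z hz
  obtain ⟨-, -, -, -, -, -, -, -, -, -, -, -, -, -, -, -, -, -, hn⟩ := hBND w
  obtain ⟨-, h0, -, hF⟩ := hFLD w
  rcases hz with hz | ⟨T, r, c, a, b, u, k, m, fl, d, s, t, x, hok, hz⟩
  · rw [hz]
    refine ⟨?_, ?_⟩
    · unfold NN
      positivity
    · rw [h0]
      positivity
  · obtain ⟨-, h1, -, h2, -⟩ := hF T r c a b u k m fl d s t x hok
    rw [hz]
    refine ⟨h1, ?_⟩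
    rw [h2]
    obtain ⟨-, -, hr, -, -, -, -, hk, -, -, -, hd, -⟩ := hok
    have hRW : RW w ≤ w.length + 2 * (nW w * nW w + 1) ^ 2 := by
      unfold RW mW
      omega
    unfold rkF
    exact rk_bound (nW w) T r k d (w.length + 2) (by omega) (by omega) (by omega) hk hd

end Pool.Agent.Helper22.GS
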